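import Pool.Agent.H31.SW.TargetsL

/-! Row GP of the board `swl_modules`: products of two shifted cut-off functions. -/

set_option autoImplicit false

open Complex

namespace Pool.Agent.H42.SWL

open Pool.Agent.H31.SW

theorem pf_GP : W_GP := by
  intro p hp r
  obtain ⟨hs, hz⟩ := hp
  constructor
  · intro n
    have h1 : ContDiff ℝ n (fun q : ℂ × ℂ × ℂ => q.2.2 + q.1 - 1) := by fun_prop
    have h2 : ContDiff ℝ n (fun q : ℂ × ℂ × ℂ => q.2.2 - q.1 - 1) := by fun_prop
    have h3 : ContDiff ℝ n (fun z : ℂ => (starRingEnd ℂ) z) := Complex.conjCLE.contDiff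
    exact (((hs r n).comp h1).mul (h3.comp ((hs r n).comp h2))).contDiffOn
  · intro a η w hw
    show p r (w + a - 1) * (starRingEnd ℂ) (p r (w - a - 1)) = 0
    by_contra h
    have h1 : ‖w + a - 1‖ ≤ 1 / 10000 := by
      by_contra h1
      exact h (by rw [hz r _ (not_le.1 h1), zero_mul])
    have h2 : ‖w - a - 1‖ ≤ 1 / 10000 := by
      by_contra h2
      exact h (by rw [hz r _ (not_le.1 h2), map_zero, mul_zero])
    have h3 : ‖(w + a - 1) + (w - a - 1)‖ ≤ 1 / 10000 + 1 / 10000 :=
      (norm_add_le _ _).trans (add_le_add h1 h2)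
    have h4 : (w + a - 1) + (w - a - 1) = 2 * (w - 1) := by ring
    rw [h4, norm_mul, Complex.norm_ofNat] at h3
    linarith

end Pool.Agent.H42.SWL
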